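import Pool.Agent.MP_077ac3_nt.H18.Defs

set_option autoImplicit false

namespace Pool.Agent.MP_077ac3_nt.H68

open Finset Matrix NumberField

/-- Liouville inequality for a linear form with real algebraic coefficients. -/
lemma liouville {ι : Type} [Fintype ι] (α : ι → ℝ) (hα : ∀ i, IsAlgebraic ℚ (α i)) :
    ∃ K : ℝ, 1 ≤ K ∧ ∃ r : ℕ, ∀ (w : ι → ℤ) (H : ℝ), 1 ≤ H → (∀ i, |(w i : ℝ)| ≤ H) →
      ∑ i, (w i : ℝ) * α i ≠ 0 → 1 ≤ K * H ^ r * |∑ i, (w i : ℝ) * α i| := by
  classical
  let F := IntermediateField.adjoin ℚ (Set.range α)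
  haveI : FiniteDimensional ℚ F :=
    IntermediateField.finiteDimensional_adjoin (by rintro _ ⟨i, rfl⟩; exact (hα i).isIntegral)
  haveI : NumberField F := ⟨⟩
  let a : ι → F := fun i => ⟨α i, IntermediateField.subset_adjoin _ _ ⟨i, rfl⟩⟩
  obtain ⟨t, ht0, ht⟩ := exists_integral_multiples ℤ ℚ (univ.image a)
  have hti : ∀ i, IsIntegral ℤ (t • a i) := fun i => ht _ (mem_image_of_mem a (mem_univ i))
  let σ : F →+* ℂ := Complex.ofRealHom.comp F.val.toRingHom
  set C : ℝ := 1 + ∑ i, house (t • a i) with hC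
  have hC1 : 1 ≤ C := by
    have : 0 ≤ ∑ i, house (t • a i) := sum_nonneg fun i _ => house_nonneg _
    linarith
  have ht1 : (1 : ℝ) ≤ |(t : ℝ)| := by
    rw [← Int.cast_abs]; exact_mod_cast Int.one_le_abs ht0
  refine ⟨|(t : ℝ)| * C ^ (Module.finrank ℚ F - 1), one_le_mul_of_one_le_of_one_le ht1
    (one_le_pow₀ hC1), Module.finrank ℚ F - 1, fun w H hH hw hne => ?_⟩
  set x : F := ∑ i, (w i : F) * (t • a i) with hx
  have hxv : (x : ℝ) = t * ∑ i, (w i : ℝ) * α i := by
    have : (x : ℝ) = F.val x := rfl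
    rw [this, hx, map_sum, mul_sum]
    refine sum_congr rfl fun i _ => ?_
    rw [map_mul, map_zsmul, map_intCast, zsmul_eq_mul]
    change (w i : ℝ) * (t * α i) = _
    ring
  have hx0 : x ≠ 0 := by
    intro h
    rw [h] at hxv
    exact mul_ne_zero (Int.cast_ne_zero.2 ht0) hne hxv.symm
  have hxi : IsIntegral ℤ x :=
    IsIntegral.sum _ fun i _ => (isIntegral_intCast (w i)).mul (hti i)
  have hn : 1 ≤ ‖Algebra.norm ℚ x‖ := by
    obtain ⟨z, hz⟩ := IsIntegrallyClosed.isIntegral_iff.1 (Algebra.isIntegral_norm ℚ hxi)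
    have hz0 : z ≠ 0 := by
      rintro rfl
      exact (Algebra.norm_ne_zero_iff.2 hx0) (by rw [← hz]; simp)
    rw [← hz, eq_intCast, Int.norm_cast_rat, Int.norm_eq_abs, ← Int.cast_abs]
    exact_mod_cast Int.one_le_abs hz0
  have hh : house x ≤ C * H := by
    refine (house_sum_le_sum_house _ _).trans ?_
    calc ∑ i, house ((w i : F) * (t • a i)) ≤ ∑ i, house (t • a i) * H := by
          refine sum_le_sum fun i _ => (house_mul_le _ _).trans ?_
          rw [house_intCast, Int.cast_abs, mul_comm]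
          exact mul_le_mul_of_nonneg_left (hw i) (house_nonneg _)
      _ ≤ C * H := by rw [← sum_mul]; nlinarith
  have hσ : ‖σ x‖ = |(t : ℝ)| * |∑ i, (w i : ℝ) * α i| := by
    have : σ x = ((x : ℝ) : ℂ) := rfl
    rw [this, Complex.norm_real, Real.norm_eq_abs, hxv, abs_mul]
  calc (1 : ℝ) ≤ ‖σ x‖ * house x ^ (Module.finrank ℚ F - 1) :=
        hn.trans (norm_norm_le_norm_mul_house_pow x σ)
    _ ≤ ‖σ x‖ * (C * H) ^ (Module.finrank ℚ F - 1) :=
        mul_le_mul_of_nonneg_left (pow_le_pow_left₀ (house_nonneg _) hh _) (norm_nonneg _)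
    _ = _ := by rw [hσ, mul_pow]; ring

lemma term_zero {ι R : Type} [Fintype ι] [DecidableEq ι] [CommRing R] (Y : Matrix ι ι R)
    (i0 j : ι) (σ : Equiv.Perm ι) (h : σ i0 ≠ j) :
    ∏ l, (Y.updateRow j (Pi.single i0 1)) (σ l) l = 0 := by
  apply prod_eq_zero (mem_univ (σ.symm j))
  rw [Equiv.apply_symm_apply, updateRow_self, Pi.single_eq_of_ne]
  rintro rfl
  exact h (by simp)

lemma prod_update_perm {ι R : Type} [Fintype ι] [DecidableEq ι] [CommMonoid R] (b : ι → R) (j : ι)
    (σ : Equiv.Perm ι) : ∏ l, Function.update b j 1 (σ l) = ∏ i ∈ univ.erase j, b i := by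
  rw [Equiv.prod_comp σ (Function.update b j 1), prod_update_of_mem (mem_univ j), one_mul,
    sdiff_singleton_eq_erase]

lemma adj_le {ι : Type} [Fintype ι] [DecidableEq ι] (Y : Matrix ι ι ℝ) (i0 j : ι) (b : ι → ℝ)
    (hb : ∀ i, 0 ≤ b i) (h : ∀ i l, l ≠ i0 → |Y i l| ≤ b i) :
    |Y.adjugate i0 j| ≤ (Fintype.card ι).factorial * ∏ i ∈ univ.erase j, b i := by
  rw [adjugate_apply, det_apply]
  refine (abs_sum_le_sum_abs _ _).trans ?_
  have : ∀ σ : Equiv.Perm ι, |Equiv.Perm.sign σ • ∏ l, (Y.updateRow j (Pi.single i0 1)) (σ l) l|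
      ≤ ∏ i ∈ univ.erase j, b i := by
    intro σ
    have e : |Equiv.Perm.sign σ • ∏ l, (Y.updateRow j (Pi.single i0 1)) (σ l) l|
        = |∏ l, (Y.updateRow j (Pi.single i0 1)) (σ l) l| := by
      rcases Int.units_eq_one_or (Equiv.Perm.sign σ) with h1 | h1 <;> simp [h1]
    rw [e]
    by_cases hσ : σ i0 = j
    · rw [← prod_update_perm b j σ, abs_prod]
      refine prod_le_prod (fun _ _ => abs_nonneg _) fun l _ => ?_
      by_cases hl : l = i0
      · subst hl; rw [hσ]; simp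
      · have : σ l ≠ j := fun h' => hl (σ.injective (h'.trans hσ.symm))
        rw [updateRow_ne this, Function.update_of_ne this]
        exact h _ _ hl
    · rw [term_zero Y i0 j σ hσ, abs_zero]
      exact prod_nonneg fun i _ => hb i
  refine (sum_le_sum fun σ _ => this σ).trans ?_
  simp [Fintype.card_perm]

lemma adj_dvd {ι : Type} [Fintype ι] [DecidableEq ι] (Y : Matrix ι ι ℤ) (i0 j : ι) (b : ι → ℤ)
    (h : ∀ i l, l ≠ i0 → b i ∣ Y i l) : ∏ i ∈ univ.erase j, b i ∣ Y.adjugate i0 j := by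
  rw [adjugate_apply, det_apply]
  refine dvd_sum fun σ _ => ?_
  rw [Units.smul_def, smul_eq_mul]
  refine Dvd.dvd.mul_left ?_ _
  by_cases hσ : σ i0 = j
  · rw [← prod_update_perm b j σ]
    refine prod_dvd_prod_of_dvd _ _ fun l _ => ?_
    by_cases hl : l = i0
    · subst hl; rw [hσ]; simp
    · have : σ l ≠ j := fun h' => hl (σ.injective (h'.trans hσ.symm))
      rw [updateRow_ne this, Function.update_of_ne this]
      exact h _ _ hl
  · rw [term_zero Y i0 j σ hσ]
    exact dvd_zero _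

lemma exp_le_pow {g : ℕ} (hg : 0 < g) (y : ℝ) (k : ℕ) (h : y ≤ k) :
    Real.exp (y * Real.log g) ≤ (g : ℝ) ^ k := by
  have h0 : 0 ≤ Real.log g := Real.log_natCast_nonneg g
  calc Real.exp (y * Real.log g) ≤ Real.exp (k * Real.log g) :=
        Real.exp_le_exp.2 (mul_le_mul_of_nonneg_right h h0)
    _ = _ := by rw [Real.exp_nat_mul, Real.exp_log (by exact_mod_cast hg)]

theorem height : H18.HeightStmt := by
  classical
  intro ι S _ _ _ M g c e halg hdet hg hcop he hδ
  set δ := ∑ i, ∑ s, e i s * Real.log (g s) - ∑ i, c i with hδdef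
  have hδ0 : 0 < δ := sub_pos.2 hδ
  set A := M.adjugate with hA
  have hAalg : ∀ i j, IsAlgebraic ℚ (A i j) := by
    intro i j
    rw [hA, adjugate_apply]
    refine (IsIntegral.det fun a b => ?_).isAlgebraic
    by_cases h : a = j
    · subst h
      rw [updateRow_self, Pi.single_apply]
      split_ifs
      · exact isIntegral_one
      · exact isIntegral_zero
    · rw [updateRow_ne h]; exact (halg a b).isIntegral
  choose K hK1 r hK using fun j => liouville (fun i => A i j) (fun i => hAalg i j)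
  let u : (ι → ℤ) → ι → ℝ := fun w j => ∑ i, (w i : ℝ) * A i j
  have hu : ∀ (w : ι → ℤ) (Y : Matrix ι ι ℝ) (l : ι),
      ∑ j, u w j * (M * Y) j l = M.det * ∑ i, (w i : ℝ) * Y i l := by
    intro w Y l
    have h1 : ((fun i => (w i : ℝ)) ᵥ* A) ᵥ* (M * Y) = M.det • ((fun i => (w i : ℝ)) ᵥ* Y) := by
      rw [vecMul_vecMul, ← Matrix.mul_assoc, hA, adjugate_mul, Matrix.smul_mul, Matrix.one_mul,
        vecMul_smul]
    exact congrFun h1 l
  let pat : (ι → ℤ) → (ι → Prop) × (ι → Prop) := fun w => (fun j => u w j = 0, fun i => w i = 0)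
  let rep : (ι → Prop) × (ι → Prop) → ι → ℤ := fun p =>
    if h : ∃ w, w ≠ 0 ∧ pat w = p then h.choose else 0
  have hrep : ∀ w, w ≠ 0 → rep (pat w) ≠ 0 ∧ pat (rep (pat w)) = pat w := by
    intro w hw
    have h : ∃ w', w' ≠ 0 ∧ pat w' = pat w := ⟨w, hw, rfl⟩
    simp only [rep, dif_pos h]
    exact h.choose_spec
  haveI : Fintype ((ι → Prop) × (ι → Prop)) := Fintype.ofFinite _
  set KW : ℝ := ∑ p, (∑ j, |u (rep p) j|) / |M.det| with hKW
  have hdp : 0 < |M.det| := abs_pos.2 hdet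
  have hKW0 : ∀ p, 0 ≤ (∑ j, |u (rep p) j|) / |M.det| := fun p =>
    div_nonneg (sum_nonneg fun _ _ => abs_nonneg _) hdp.le
  set K0 : ℝ := (Fintype.card ι).factorial * ∑ j, K j with hK0
  have hK00 : 0 ≤ K0 := mul_nonneg (Nat.cast_nonneg _) (sum_nonneg fun j _ => by linarith [hK1 j])
  have hKWn : 0 ≤ KW := sum_nonneg fun p _ => hKW0 p
  set R : ℕ := ∑ j, r j + Fintype.card S + 1 with hR
  have hR0 : (0 : ℝ) < R := by exact_mod_cast (by omega : 0 < R)
  refine ⟨δ / (4 * R), by positivity, (univ.image rep).erase 0, notMem_erase _ _,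
    4 * (KW + K0) / δ, fun q hq X i0 hX hXc hXd => ?_⟩
  have hq1 : KW + K0 ≤ δ * q / 4 := by
    rw [div_le_iff₀ hδ0] at hq; linarith
  have hq0 : 0 ≤ q := le_trans (by positivity) hq
  have hexp := Real.add_one_le_exp (δ * q / 4)
  obtain ⟨w, hw, hgcd⟩ := Finset.extract_gcd (fun i => X.adjugate i0 i) ⟨i0, mem_univ i0⟩
  set t := univ.gcd (fun i => X.adjugate i0 i) with ht
  have hsum : ∀ l, t * ∑ i, w i * X i l = if i0 = l then X.det else 0 := by
    intro l
    have h1 := congrFun (congrFun (adjugate_mul X) i0) l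
    rw [Matrix.mul_apply, Matrix.smul_apply, Matrix.one_apply, smul_eq_mul, mul_ite, mul_one,
      mul_zero] at h1
    rw [← h1, mul_sum]
    exact sum_congr rfl fun i _ => by rw [hw i (mem_univ i)]; ring
  have ht0 : t ≠ 0 := by
    intro h
    have := hsum i0
    rw [h, zero_mul, if_pos rfl] at this
    exact hX this.symm
  have hw0 : w ≠ 0 := by
    intro h
    have := hsum i0
    rw [h, if_pos rfl] at this
    simp at this
    exact hX this.symm
  have hwX : ∀ l, l ≠ i0 → ∑ i, w i * X i l = 0 := by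
    intro l hl
    have := hsum l
    rw [if_neg (Ne.symm hl)] at this
    exact (mul_eq_zero.1 this).resolve_left ht0
  have hne0 : (univ.filter fun i => w i ≠ 0).Nonempty := by
    obtain ⟨i, hi⟩ := Function.ne_iff.1 hw0
    exact ⟨i, mem_filter.2 ⟨mem_univ _, hi⟩⟩
  have hne1 : (univ.filter fun j => u w j ≠ 0).Nonempty := by
    by_contra hc
    rw [not_nonempty_iff_eq_empty, filter_eq_empty_iff] at hc
    obtain ⟨i, hi⟩ := Function.ne_iff.1 hw0
    have h1 := hu w 1 i
    rw [sum_eq_zero (fun j _ => by rw [not_not.1 (hc (mem_univ j)), zero_mul])] at h1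
    simp [Matrix.one_apply, hdet] at h1
    exact hi h1
  obtain ⟨js, hjs, hjmax⟩ := exists_max_image _ c hne1
  have hjs' : u w js ≠ 0 := (mem_filter.1 hjs).2
  choose is his himin using fun s => exists_min_image _ (fun i => e i s) hne0
  have his' : ∀ s, w (is s) ≠ 0 := fun s => (mem_filter.1 (his s)).2
  set Xr : Matrix ι ι ℝ := X.map (Int.castRingHom ℝ) with hXr
  have hMX : ∀ i l, l ≠ i0 → |(M * Xr) i l| ≤ Real.exp (c i * q) := fun i l hl => hXc i l hl
  set E := ∑ s, e (is s) s * Real.log (g s) with hE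
  by_cases hτ : c js - E ≤ -δ / 2
  · left
    obtain ⟨h1, h2⟩ := hrep w hw0
    set w' := rep (pat w) with hw'
    have hp1 : ∀ j, u w' j = 0 ↔ u w j = 0 := fun j => iff_of_eq (congrFun (congrArg Prod.fst h2) j)
    have hp2 : ∀ i, w' i = 0 ↔ w i = 0 := fun i => iff_of_eq (congrFun (congrArg Prod.snd h2) i)
    refine ⟨w', mem_erase.2 ⟨h1, mem_image_of_mem _ (mem_univ _)⟩, fun l hl => ?_⟩
    by_contra hn
    have hdvd : ∏ s, (g s : ℤ) ^ ⌈e (is s) s * q⌉₊ ∣ ∑ i, w' i * X i l := by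
      refine dvd_sum fun i _ => ?_
      by_cases hi : w' i = 0
      · rw [hi, zero_mul]; exact dvd_zero _
      · refine Dvd.dvd.mul_left (dvd_trans ?_ (hXd i l hl)) _
        refine prod_dvd_prod_of_dvd _ _ fun s _ => pow_dvd_pow _ (Nat.ceil_mono ?_)
        exact mul_le_mul_of_nonneg_right
          (himin s i (mem_filter.2 ⟨mem_univ _, fun h => hi ((hp2 i).2 h)⟩)) hq0
    have hle : (∏ s, (g s : ℝ) ^ ⌈e (is s) s * q⌉₊) ≤ |∑ i, (w' i : ℝ) * Xr i l| := by
      have := Int.le_of_dvd (abs_pos.2 hn) ((dvd_abs _ _).2 hdvd)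
      have h3 : ((∏ s, (g s : ℤ) ^ ⌈e (is s) s * q⌉₊ : ℤ) : ℝ) ≤ ((|∑ i, w' i * X i l| : ℤ) : ℝ) := by
        exact_mod_cast this
      simpa [hXr] using h3
    have hlow : Real.exp (E * q) ≤ ∏ s, (g s : ℝ) ^ ⌈e (is s) s * q⌉₊ := by
      rw [hE, sum_mul, Real.exp_sum]
      refine prod_le_prod (fun _ _ => (Real.exp_pos _).le) fun s _ => ?_
      rw [mul_right_comm]
      exact exp_le_pow (hg s) _ _ (Nat.le_ceil _)
    have hup : |M.det| * |∑ i, (w' i : ℝ) * Xr i l|
        ≤ (∑ j, |u w' j|) * Real.exp (c js * q) := by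
      rw [← abs_mul, ← hu w' Xr l, sum_mul]
      refine (abs_sum_le_sum_abs _ _).trans (sum_le_sum fun j _ => ?_)
      rw [abs_mul]
      by_cases hj : u w' j = 0
      · simp [hj]
      · refine mul_le_mul_of_nonneg_left ((hMX j l hl).trans (Real.exp_le_exp.2 ?_)) (abs_nonneg _)
        exact mul_le_mul_of_nonneg_right
          (hjmax j (mem_filter.2 ⟨mem_univ _, fun h => hj ((hp1 j).2 h)⟩)) hq0
    have hb : (∑ j, |u w' j|) / |M.det| ≤ KW :=
      single_le_sum (f := fun p => (∑ j, |u (rep p) j|) / |M.det|) (fun p _ => hKW0 p)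
        (mem_univ (pat w))
    have h4 : Real.exp (E * q) ≤ KW * Real.exp (c js * q) := by
      refine (hlow.trans hle).trans ?_
      rw [div_le_iff₀ hdp] at hb
      refine le_of_mul_le_mul_left (hup.trans ?_) hdp
      have := mul_le_mul_of_nonneg_right hb (Real.exp_pos (c js * q)).le
      linarith
    have h5 : Real.exp (δ * q / 4) * Real.exp (c js * q) ≤ Real.exp (E * q) := by
      rw [← Real.exp_add]
      apply Real.exp_le_exp.2
      nlinarith
    have h6 := le_of_mul_le_mul_right (h5.trans h4) (Real.exp_pos _)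
    linarith
  · right
    push Not at hτ
    obtain ⟨i1, -, hi1⟩ := exists_max_image univ (fun i => |(w i : ℝ)|) ⟨i0, mem_univ _⟩
    refine ⟨w, hwX, hgcd, i1, ?_⟩
    set H := |(w i1 : ℝ)| with hH
    have hH1 : 1 ≤ H := by
      obtain ⟨i, hi⟩ := Function.ne_iff.1 hw0
      refine le_trans ?_ (hi1 i (mem_univ i))
      rw [← Int.cast_abs]; exact_mod_cast Int.one_le_abs hi
    have hL : 1 ≤ K js * H ^ r js * |u w js| := hK js w H hH1 (fun i => hi1 i (mem_univ i)) hjs'
    have hadj : (M * Xr).adjugate i0 js = t * u w js := by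
      rw [adjugate_mul_distrib, Matrix.mul_apply, mul_sum]
      refine sum_congr rfl fun i _ => ?_
      have : Xr.adjugate i0 i = (X.adjugate i0 i : ℝ) :=
        (congrFun (congrFun ((Int.castRingHom ℝ).map_adjugate X) i0) i).symm
      rw [this, hw i (mem_univ i)]
      push_cast; ring
    have hup : |(t : ℝ)| * |u w js|
        ≤ (Fintype.card ι).factorial * Real.exp ((∑ i, c i - c js) * q) := by
      rw [← abs_mul, ← hadj]
      refine (adj_le _ i0 js _ (fun i => (Real.exp_pos _).le) hMX).trans (le_of_eq ?_)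
      rw [← Real.exp_sum, ← sum_mul, sum_erase_eq_sub (mem_univ js)]
    have hdvd : ∏ s, (g s : ℤ) ^ (∑ i ∈ univ.erase (is s), ⌈e i s * q⌉₊) ∣ t * ∏ s, w (is s) := by
      refine Fintype.prod_dvd_of_coprime (fun s s' hs => ?_) fun s => ?_
      · exact IsCoprime.pow (Nat.isCoprime_iff_coprime.2 (hcop s s' hs))
      · have h1 := adj_dvd X i0 (is s) (fun i => (g s : ℤ) ^ ⌈e i s * q⌉₊) fun i l hl =>
          (dvd_prod_of_mem (fun s => (g s : ℤ) ^ ⌈e i s * q⌉₊) (mem_univ s)).trans (hXd i l hl)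
        rw [prod_pow_eq_pow_sum, hw _ (mem_univ _)] at h1
        exact h1.trans (mul_dvd_mul_left t (dvd_prod_of_mem _ (mem_univ s)))
    have hle : (∏ s, (g s : ℝ) ^ (∑ i ∈ univ.erase (is s), ⌈e i s * q⌉₊))
        ≤ |(t : ℝ)| * H ^ Fintype.card S := by
      have := Int.le_of_dvd (abs_pos.2 (mul_ne_zero ht0 (prod_ne_zero_iff.2 fun s _ => his' s)))
        ((dvd_abs _ _).2 hdvd)
      have h3 : ((∏ s, (g s : ℤ) ^ (∑ i ∈ univ.erase (is s), ⌈e i s * q⌉₊) : ℤ) : ℝ)
          ≤ ((|t * ∏ s, w (is s)| : ℤ) : ℝ) := by exact_mod_cast this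
      push_cast at h3
      refine h3.trans ?_
      rw [abs_mul, abs_prod]
      refine mul_le_mul_of_nonneg_left ?_ (abs_nonneg _)
      calc ∏ s, |(w (is s) : ℝ)| ≤ ∏ _s : S, H :=
            prod_le_prod (fun _ _ => abs_nonneg _) fun s _ => hi1 _ (mem_univ _)
        _ = _ := by simp
    have hlow : Real.exp ((∑ i, ∑ s, e i s * Real.log (g s) - E) * q)
        ≤ ∏ s, (g s : ℝ) ^ (∑ i ∈ univ.erase (is s), ⌈e i s * q⌉₊) := by
      rw [sum_comm, hE, ← sum_sub_distrib, sum_mul, Real.exp_sum]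
      refine prod_le_prod (fun _ _ => (Real.exp_pos _).le) fun s _ => ?_
      have e1 : (∑ i, e i s * Real.log (g s) - e (is s) s * Real.log (g s)) * q
          = (∑ i ∈ univ.erase (is s), e i s * q) * Real.log (g s) := by
        rw [sum_erase_eq_sub (mem_univ _), ← sum_mul, ← sum_mul]; ring
      rw [e1]
      apply exp_le_pow (hg s)
      push_cast
      exact sum_le_sum fun i _ => Nat.le_ceil _
    have hKj : K js ≤ ∑ j, K j :=
      single_le_sum (fun j _ => by linarith [hK1 j]) (mem_univ js)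
    have hrj : r js ≤ ∑ j, r j := single_le_sum (fun j _ => Nat.zero_le _) (mem_univ js)
    have hpw : H ^ r js * H ^ Fintype.card S ≤ H ^ R := by
      rw [← pow_add]; exact pow_le_pow_right₀ hH1 (by omega)
    have h4 : Real.exp ((∑ i, ∑ s, e i s * Real.log (g s) - E) * q)
        ≤ K0 * H ^ R * Real.exp ((∑ i, c i - c js) * q) := by
      have hK0' : 0 ≤ K js := by linarith [hK1 js]
      have hK0'' : 0 ≤ ∑ j, K j := hK0'.trans hKj
      calc _ ≤ |(t : ℝ)| * H ^ Fintype.card S := hlow.trans hle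
        _ ≤ |(t : ℝ)| * H ^ Fintype.card S * (K js * H ^ r js * |u w js|) :=
            le_mul_of_one_le_right (by positivity) hL
        _ = K js * (H ^ r js * H ^ Fintype.card S) * (|(t : ℝ)| * |u w js|) := by ring
        _ ≤ (∑ j, K j) * H ^ R *
              ((Fintype.card ι).factorial * Real.exp ((∑ i, c i - c js) * q)) := by
            gcongr
        _ = _ := by rw [hK0]; ring
    have h5 : Real.exp (δ * q / 4) * Real.exp (δ * q / 4) * Real.exp ((∑ i, c i - c js) * q)
        ≤ Real.exp ((∑ i, ∑ s, e i s * Real.log (g s) - E) * q) := by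
      rw [← Real.exp_add, ← Real.exp_add]
      apply Real.exp_le_exp.2
      have : ∑ i, ∑ s, e i s * Real.log (g s) = δ + ∑ i, c i := by rw [hδdef]; ring
      rw [this]
      nlinarith
    have h6 := le_of_mul_le_mul_right (h5.trans h4) (Real.exp_pos _)
    have h7 : Real.exp (δ * q / 4) ≤ H ^ R := by
      refine le_of_mul_le_mul_left (h6.trans ?_) (Real.exp_pos (δ * q / 4))
      exact mul_le_mul_of_nonneg_right (by linarith) (by positivity)
    refine le_of_pow_le_pow_left₀ (by omega : R ≠ 0) (by linarith) (le_trans (le_of_eq ?_) h7)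
    rw [← Real.exp_nat_mul]; congr 1; field_simp

end Pool.Agent.MP_077ac3_nt.H68
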